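import Pool.Agent.Helper35_TB.Stmt3

set_option autoImplicit false

/-!
# FAR_ASMF: assembly of the far excursions
-/

namespace Pool.Agent.HM.FAR.H85

open Complex Set Topology Pool.Agent.HM Pool.Agent.HM.FAR

noncomputable section

/-- radial velocity with a cut off, continuous everywhere -/
def SSc (X : JS) : ℝ := dt X.2.1 X.2.2.2 / max ‖X.2.1‖ 17

lemma SSc_cont : Continuous SSc := by
  unfold SSc dt
  refine Continuous.div (by fun_prop) (by fun_prop) ?_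
  intro X
  have : (17 : ℝ) ≤ max ‖X.2.1‖ 17 := le_max_right _ _
  linarith

lemma SSc_eq {X : JS} (h : 17 ≤ ‖X.2.1‖) : SSc X = SS X := by
  rw [SSc, SS, max_eq_left h]

lemma near_of {m : Fin 3 → ℝ} (hm : NearF m) : Near1 (1 / 100) m := fun i => by
  have := hm i
  norm_num at this ⊢
  linarith

section run

variable {m : Fin 3 → ℝ} {σ : ℝ} {Φ : JS → ℝ → JS}

/-- a-priori estimate for the flow -/
lemma run_of (hsta : StaStmt) (hm : NearF m) (hσ : σ = 1 ∨ σ = -1)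
    (hc : Continuous (fun p : JS × ℝ => Φ p.1 p.2)) (h0 : ∀ X, Φ X 0 = X)
    (hd : ∀ X t, Good (Φ X t) → HasDerivAt (Φ X) (JVF m (Φ X t)) t)
    {X : JS} (hX : X ∈ WinP m σ) {s0 : ℝ} (hs0 : -0.505 ≤ s0) {T : ℝ} (hT : 0 ≤ T)
    (hg : ∀ t ∈ Icc (0 : ℝ) T, 0 ≤ SSc (Φ X t) - s0) :
    Run m σ T (Φ X) ∧ ∀ t ∈ Icc (0 : ℝ) T, RegA m (Φ X t) := by
  have hcX : Continuous (Φ X) := hc.comp (continuous_const.prodMk continuous_id)
  have hcy : Continuous fun t => ‖(Φ X t).2.1‖ - 17 := by fun_prop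
  have mk : ∀ t, 0 ≤ t → t ≤ T → (∀ s ∈ Icc (0 : ℝ) t, 0 ≤ ‖(Φ X s).2.1‖ - 17) →
      Run m σ t (Φ X) := by
    intro t ht htT hs
    refine ⟨ht, hcX, fun s => hd X s, by rw [h0]; exact hX, ?_⟩
    intro s hsI
    have h1 := hs s hsI
    have h2 := hg s ⟨hsI.1, hsI.2.trans htT⟩
    rw [SSc_eq (by linarith)] at h2
    linarith
  have hy : ∀ t ∈ Icc (0 : ℝ) T, 0 < ‖(Φ X t).2.1‖ - 17 := by
    refine Helper35TB.cont_induction hcy.continuousOn ?_ ?_
    · intro t ht hs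
      have h1 := (hsta m hm σ hσ t _ (mk t ht.1 ht.2 hs) t ⟨ht.1, le_rfl⟩).R1
      linarith
    · rw [h0]
      have := hX.2.2.1
      linarith
  have hrun := mk T hT le_rfl (fun s hs => (hy s hs).le)
  exact ⟨hrun, hsta m hm σ hσ T _ hrun⟩

end run

theorem asmf : AsmfStmt := by
  intro hflow hhit hbr hsta hlyap hdich hdrift hturn
  refine ⟨1 / 10 ^ 6, by norm_num, fun m hm σ hσ => ?_⟩
  obtain ⟨Φ, hc, h0, hd⟩ := hflow m (near_of hm)
  refine ⟨1e9, 1e10, 0.08, 1e5, by norm_num, by norm_num, fun Tmax hTm => ?_⟩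
  have hT0 : 0 < Tmax := lt_trans (by norm_num) ((le_max_left _ _).trans_lt hTm)
  have hcX : ∀ X, Continuous (Φ X) := fun X => hc.comp (continuous_const.prodMk continuous_id)
  -- hitting time
  obtain ⟨τ, hτc, hτ⟩ := hhit (Dom m σ) (fun a t => SSc (Φ a.1.1 t) - a.1.2)
    (fun a t => deriv (fun t => SSc (Φ a.1.1 t) - a.1.2) t) Tmax hT0
    (by
      refine Continuous.sub (SSc_cont.comp ?_)
        ((continuous_snd.comp continuous_subtype_val).comp continuous_fst)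
      have h1 : Continuous (fun p : (Dom m σ) × ℝ => (p.1.1.1, p.2)) :=
        ((continuous_fst.comp continuous_subtype_val).comp continuous_fst).prodMk continuous_snd
      exact hc.comp h1)
    (by
      intro a
      have ha := a.2
      have h1 : a.1.1 ∈ WinP m σ := ha.1
      have h2 : a.1.2 ∈ Icc (-0.505 : ℝ) (-0.485) := ha.2
      show 0 < SSc (Φ a.1.1 0) - a.1.2
      rw [h0, SSc_eq (by linarith [h1.2.2.1])]
      have h3 := h1.2.2.2.2.1
      have h4 := h2.2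
      norm_num at h3 h4 ⊢
      linarith)
    (by
      intro a t ht hs
      have h1 : a.1.1 ∈ WinP m σ := a.2.1
      have h2 : a.1.2 ∈ Icc (-0.505 : ℝ) (-0.485) := a.2.2
      obtain ⟨hrun, hreg⟩ := run_of hsta hm hσ hc h0 hd h1 h2.1 ht.1 hs
      obtain ⟨-, S', hS'⟩ := hlyap m hm σ hσ t _ hrun hreg
      obtain ⟨hS1, hS2⟩ := hS' t ⟨ht.1, le_rfl⟩
      have hR := (hreg t ⟨ht.1, le_rfl⟩).R1
      have hev : ∀ᶠ s in 𝓝 t, SSc (Φ a.1.1 s) - a.1.2 = SS (Φ a.1.1 s) - a.1.2 := by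
        have hcy : Continuous fun s => ‖(Φ a.1.1 s).2.1‖ := by
          have := hcX a.1.1
          fun_prop
        have : ∀ᶠ s in 𝓝 t, 17 < ‖(Φ a.1.1 s).2.1‖ :=
          hcy.continuousAt.eventually_const_lt (by linarith)
        filter_upwards [this] with s hs
        rw [SSc_eq hs.le]
      have hder : HasDerivAt (fun s => SSc (Φ a.1.1 s) - a.1.2) (S' t) t :=
        (hS1.sub_const a.1.2).congr_of_eventuallyEq hev
      rw [hder.deriv]
      refine ⟨hder, lt_of_le_of_lt hS2 ?_⟩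
      have : 0 < ‖(Φ a.1.1 t).2.1‖ := by linarith
      have h3 : 0 < 2.99 / ‖(Φ a.1.1 t).2.1‖ ^ 2 := by positivity
      linarith)
  classical
  let dur : JS × ℝ → ℝ := fun a => if h : a ∈ Dom m σ then τ ⟨a, h⟩ else 0
  have hdur : ∀ a (h : a ∈ Dom m σ), dur a = τ ⟨a, h⟩ := fun a h => dif_pos h
  have hdc : ContinuousOn dur (Dom m σ) := by
    rw [continuousOn_iff_continuous_domRestrict]
    have : (Dom m σ).domRestrict dur = τ := by
      funext a
      exact hdur a.1 a.2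
    rw [this]
    exact hτc
  have hrun : ∀ a ∈ Dom m σ, Run m σ (dur a) (Φ a.1) ∧
      ∀ t ∈ Icc (0 : ℝ) (dur a), RegA m (Φ a.1 t) := by
    intro a ha
    have h1 := hτ ⟨a, ha⟩
    rw [← hdur a ha] at h1
    refine run_of hsta hm hσ hc h0 hd ha.1 ha.2.1 h1.1.le ?_
    intro t ht
    rcases ht.2.lt_or_eq with h2 | h2
    · exact (h1.2.2.1 t ⟨ht.1, h2⟩).le
    · rw [h2]
      exact h1.2.2.2.1
  have hlast : ∀ a ∈ Dom m σ, dur a < Tmax → SS (Φ a.1 (dur a)) = a.2 := by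
    intro a ha hlt
    have h1 := hτ ⟨a, ha⟩
    rw [← hdur a ha] at h1
    have h2 := h1.2.2.2.2 hlt
    have h3 := ((hrun a ha).2 (dur a) ⟨h1.1.le, le_rfl⟩).R1
    rw [SSc_eq (by linarith)] at h2
    linarith
  have hS' : ∀ a ∈ Dom m σ, ∃ S' : ℝ → ℝ, ∀ t ∈ Icc (0 : ℝ) (dur a),
      HasDerivAt (fun t => SS (Φ a.1 t)) (S' t) t ∧ S' t ≤ -(2.99 / ‖(Φ a.1 t).2.1‖ ^ 2) :=
    fun a ha => (hlyap m hm σ hσ _ _ (hrun a ha).1 (hrun a ha).2).2
  have hdi := fun a (ha : a ∈ Dom m σ) => hdich m hm σ hσ _ _ (hrun a ha).1 (hrun a ha).2 (hS' a ha)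
  have hdr := fun a (ha : a ∈ Dom m σ) => hdrift m hm σ hσ _ _ (hrun a ha).1 (hrun a ha).2
  have hpos : ∀ a ∈ Dom m σ, 0 < dur a ∧ dur a ≤ Tmax := by
    intro a ha
    have h1 := hτ ⟨a, ha⟩
    rw [← hdur a ha] at h1
    exact ⟨h1.1, h1.2.1⟩
  have hmul : ∀ a ∈ Dom m σ, ∀ s ∈ Icc (0 : ℝ) 1, dur a * s ∈ Icc (0 : ℝ) (dur a) := by
    intro a ha s hs
    have h1 := (hpos a ha).1
    exact ⟨mul_nonneg h1.le hs.1, mul_le_of_le_one_right h1.le hs.2⟩
  refine ⟨dur, fun a s => Φ a.1 (dur a * s), ?_⟩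
  have hlastI : ∀ a ∈ Dom m σ, dur a ∈ Icc (0 : ℝ) (dur a) := fun a ha => ⟨(hpos a ha).1.le, le_rfl⟩
  refine ⟨hdc, ?_, hpos, ?_, ?_, ?_, ?_, ?_, ?_, ?_, ?_, ?_, ?_, ?_, ?_, ?_⟩
  · have h1 : ContinuousOn (fun p : (JS × ℝ) × ℝ => (p.1.1, dur p.1 * p.2))
        (Dom m σ ×ˢ Icc 0 1) := by
      refine ContinuousOn.prodMk (by fun_prop) (ContinuousOn.mul ?_ (by fun_prop))
      exact hdc.comp (by fun_prop) (fun p hp => hp.1)
    exact hc.comp_continuousOn h1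
  · intro a ha s hs
    have hreg := (hrun a ha).2 _ (hmul a ha s hs)
    refine ⟨hreg.lev.1, ?_⟩
    have h1 := hd a.1 (dur a * s) hreg.good
    have h2 : HasDerivAt (fun s => dur a * s) (dur a) s := by
      simpa using (hasDerivAt_id s).const_mul (dur a)
    have h3 := h1.scomp s h2
    exact h3.hasDerivWithinAt
  · intro a ha
    show Φ a.1 (dur a * 0) = a.1
    rw [mul_zero, h0]
  · intro a ha s hs
    have hreg := (hrun a ha).2 _ (hmul a ha s hs)
    have h1 := hreg.r2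
    have h2 := hreg.R1
    show ‖(Φ a.1 (dur a * s)).1‖ ≤ ‖(Φ a.1 (dur a * s)).2.1‖ / 8
    norm_num at h1 h2 ⊢
    linarith
  · intro a ha hlt
    show SS (Φ a.1 (dur a * 1)) = a.2 ∧ ‖(Φ a.1 (dur a * 1)).2.1‖ ≤ 26
    rw [mul_one]
    have h1 := hlast a ha hlt
    refine ⟨h1, (hdi a ha).2.2.2 _ (hlastI a ha) ?_⟩
    rw [h1]
    exact ha.2.2
  · intro a ha
    show 23 ≤ ‖(Φ a.1 (dur a * 1)).2.1‖
    rw [mul_one]
    have h1 := ((hrun a ha).2 _ (hlastI a ha)).R1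
    linarith
  · intro a ha
    show ‖(Φ a.1 (dur a * 1)).1‖ ≤ 2
    rw [mul_one]
    have h1 := ((hrun a ha).2 _ (hlastI a ha)).r2
    norm_num at h1 ⊢
    linarith
  · intro a ha
    show |EO m (Φ a.1 (dur a * 1))| ≤ 1e-3
    rw [mul_one]
    have h1 := ((hrun a ha).2 _ (hlastI a ha)).E
    norm_num at h1 ⊢
    linarith
  · intro a ha
    have h1 := (hdr a ha _ (hlastI a ha)).2.2.1
    rw [h0] at h1
    show |(2.325 - 0.275 * σ) * (LL (Φ a.1 (dur a * 1)) - LL a.1 - dLf) +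
      (gg m (Φ a.1 (dur a * 1)) - gg m a.1 + σ * dGf)| ≤ 4.65 * etaD
    rw [mul_one]
    exact h1
  · intro a ha
    have h1 := (hdr a ha _ (hlastI a ha)).2.2.2
    rw [h0] at h1
    show |(2.325 + 0.275 * σ) * (LL (Φ a.1 (dur a * 1)) - LL a.1 - dLf) -
      (gg m (Φ a.1 (dur a * 1)) - gg m a.1 + σ * dGf)| ≤ 4.65 * etaD
    rw [mul_one]
    exact h1
  · intro a ha hE
    by_contra hne
    have hlt : dur a < Tmax := lt_of_le_of_ne (hpos a ha).2 hne
    have h1 := (hdi a ha).1 (by rw [h0]; exact hE) _ (hlastI a ha)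
    rw [hlast a ha hlt] at h1
    have h2 := ha.2.2
    norm_num at h1 h2
    linarith
  · intro a ha hE
    exact (hdi a ha).2.1 (by rw [h0]; exact hE)
  · intro a ha h1 hlt
    show |EO m (Φ a.1 (dur a * 1))| ≤ wE
    rw [mul_one]
    refine (hdi a ha).2.2.1 h1 ?_
    rw [hlast a ha hlt]
    exact ha.2.2
  · intro a ha θ hθ he
    have hp := (hpos a ha).1
    have h1 := hturn m hm σ hσ _ _ (hrun a ha).1 (hrun a ha).2
      (fun t ht => ⟨(hdr a ha t ht).1, (hdr a ha t ht).2.1⟩) (fun t => θ (t / dur a))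
      (by
        refine hθ.comp (by fun_prop) ?_
        intro t ht
        exact ⟨div_nonneg ht.1 hp.le, (div_le_one hp).2 ht.2⟩)
      (by
        intro t ht
        have h2 := he (t / dur a) ⟨div_nonneg ht.1 hp.le, (div_le_one hp).2 ht.2⟩
        have h3 : dur a * (t / dur a) = t := mul_div_cancel₀ t hp.ne'
        simp only [h3] at h2
        exact h2)
    simp only [div_self hp.ne', zero_div] at h1
    obtain ⟨h2, h3⟩ := h1
    norm_num at h2 h3 ⊢
    constructor <;> linarith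

end

end Pool.Agent.HM.FAR.H85
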