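import Pool.Agent.Helper35_TB.Stmt3

set_option autoImplicit false

/-!
# FAR_DICH: returns and escapes
-/

namespace Pool.Agent.HM.FAR.H85

open Complex Set Topology Pool.Agent.HM Pool.Agent.HM.FAR

lemma comp_le {f g f' g' : ℝ → ℝ} {s t : ℝ} (hst : s ≤ t)
    (hf : ∀ τ ∈ Icc s t, HasDerivAt f (f' τ) τ) (hg : ∀ τ ∈ Icc s t, HasDerivAt g (g' τ) τ)
    (h : ∀ τ ∈ Icc s t, f' τ ≤ g' τ) : f t - f s ≤ g t - g s := by
  have hd : ∀ τ ∈ Icc s t, HasDerivAt (fun τ => f τ - g τ) (f' τ - g' τ) τ :=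
    fun τ hτ => (hf τ hτ).sub (hg τ hτ)
  have ha : AntitoneOn (fun τ => f τ - g τ) (Icc s t) := by
    refine antitoneOn_of_hasDerivWithinAt_nonpos (convex_Icc s t)
      (fun τ hτ => (hd τ hτ).continuousAt.continuousWithinAt)
      (f' := fun τ => f' τ - g' τ) (fun τ hτ => ?_) (fun τ hτ => ?_)
    · exact (hd τ (interior_subset hτ)).hasDerivWithinAt
    · have := h τ (interior_subset hτ)
      linarith
  have := ha ⟨le_rfl, hst⟩ ⟨hst, le_rfl⟩ hst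
  simp only at this
  linarith

lemma comp_abs {f g f' g' : ℝ → ℝ} {s t : ℝ} (hst : s ≤ t)
    (hf : ∀ τ ∈ Icc s t, HasDerivAt f (f' τ) τ) (hg : ∀ τ ∈ Icc s t, HasDerivAt g (g' τ) τ)
    (h : ∀ τ ∈ Icc s t, |f' τ| ≤ g' τ) : |f t - f s| ≤ g t - g s := by
  rw [abs_le]
  have h1 := comp_le hst hf hg (fun τ hτ => (abs_le.mp (h τ hτ)).2)
  have h2 := comp_le (f := fun τ => -f τ) (f' := fun τ => -f' τ) hst
    (fun τ hτ => (hf τ hτ).neg) hg
    (fun τ hτ => by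
      have := (abs_le.mp (h τ hτ)).1
      linarith)
  constructor <;> linarith

/-- the real system -/
structure Sys (T M : ℝ) (R S S' E E' Q : ℝ → ℝ) : Prop where
  T0 : 0 ≤ T
  M1 : 2.999997 ≤ M
  M2 : M ≤ 3.000003
  dR : ∀ t ∈ Icc (0 : ℝ) T, HasDerivAt R (S t) t
  dS : ∀ t ∈ Icc (0 : ℝ) T, HasDerivAt S (S' t) t
  dS' : ∀ t ∈ Icc (0 : ℝ) T, S' t ≤ -(2.99 / R t ^ 2)
  dE : ∀ t ∈ Icc (0 : ℝ) T, HasDerivAt E (E' t) t
  dE' : ∀ t ∈ Icc (0 : ℝ) T, |E' t| ≤ 1.88 * |S t| / R t ^ 4 + 0.075 / R t ^ 5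
  R1 : ∀ t ∈ Icc (0 : ℝ) T, 23.3 ≤ R t
  R0 : 24 ≤ R 0
  S1 : ∀ t ∈ Icc (0 : ℝ) T, |S t| ≤ 0.505
  S0 : 0.485 ≤ S 0
  Eq : ∀ t ∈ Icc (0 : ℝ) T, E t = (S t ^ 2 + Q t) / 3 - 2 * M / (3 * R t)
  Q0 : ∀ t ∈ Icc (0 : ℝ) T, 0 ≤ Q t
  Q1 : ∀ t ∈ Icc (0 : ℝ) T, Q t ≤ 0.01 / R t ^ 2
  E1 : ∀ t ∈ Icc (0 : ℝ) T, |E t| ≤ 8.2e-4

variable {T M : ℝ} {R S S' E E' Q : ℝ → ℝ}

lemma Sys.Sneg (h : Sys T M R S S' E E' Q) {t : ℝ} (ht : t ∈ Icc (0 : ℝ) T) : S' t < 0 := by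
  have h1 := h.dS' t ht
  have h2 := h.R1 t ht
  have h3 : 0 < 2.99 / R t ^ 2 := by positivity
  linarith

lemma Sys.anti (h : Sys T M R S S' E E' Q) : AntitoneOn S (Icc 0 T) := by
  refine antitoneOn_of_hasDerivWithinAt_nonpos (convex_Icc 0 T)
      (fun τ hτ => (h.dS τ hτ).continuousAt.continuousWithinAt)
      (f' := S') (fun τ hτ => ?_) (fun τ hτ => ?_)
  · exact (h.dS τ (interior_subset hτ)).hasDerivWithinAt
  · exact (h.Sneg (interior_subset hτ)).le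

lemma Sys.zero (h : Sys T M R S S' E E' Q) {t : ℝ} (ht : t ∈ Icc (0 : ℝ) T) (hS : S t ≤ 0) :
    ∃ t0 ∈ Icc (0 : ℝ) t, S t0 = 0 := by
  have hc : ContinuousOn S (Icc 0 t) := fun τ hτ =>
    (h.dS τ ⟨hτ.1, hτ.2.trans ht.2⟩).continuousAt.continuousWithinAt
  have := intermediate_value_Icc' ht.1 hc
  have h0 := h.S0
  obtain ⟨t0, ht0, he⟩ := this ⟨hS, by linarith⟩
  exact ⟨t0, ht0, he⟩

lemma dcube {R S : ℝ → ℝ} {t : ℝ} (hR : HasDerivAt R (S t) t) (h0 : 0 < R t) :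
    HasDerivAt (fun t => 1 / (3 * R t ^ 3)) (-(S t / R t ^ 4)) t := by
  have h1 : HasDerivAt (fun t => 3 * R t ^ 3) (3 * (3 * R t ^ 2 * S t)) t := by
    have := (hR.pow 3).const_mul 3
    simpa using this
  have h2 := h1.inv (by positivity)
  have e : (fun t => 1 / (3 * R t ^ 3)) = fun t => (3 * R t ^ 3)⁻¹ := by
    funext t
    rw [one_div]
  rw [e]
  refine h2.congr_deriv ?_
  field_simp

lemma small5 {R : ℝ} (hR : 23.3 ≤ R) : 0.075 / R ^ 5 ≤ 2e-6 * (2.99 / R ^ 2) := by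
  have h0 : 0 < R := by linarith
  have h3 : (23.3 : ℝ) ^ 3 ≤ R ^ 3 := pow_le_pow_left₀ (by norm_num) hR 3
  rw [show 2e-6 * (2.99 / R ^ 2) = (2e-6 * 2.99) / R ^ 2 by ring,
    div_le_div_iff₀ (by positivity) (by positivity)]
  have h5 : R ^ 5 = R ^ 3 * R ^ 2 := by ring
  rw [h5]
  have h2 : 0 < R ^ 2 := by positivity
  have h6 : (0.075 : ℝ) ≤ 2e-6 * 2.99 * R ^ 3 := by
    norm_num at h3 ⊢
    linarith
  calc 0.075 * R ^ 2 ≤ (2e-6 * 2.99 * R ^ 3) * R ^ 2 := mul_le_mul_of_nonneg_right h6 h2.le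
    _ = 2e-6 * 2.99 * (R ^ 3 * R ^ 2) := by ring

/-- growing part -/
lemma Sys.up (h : Sys T M R S S' E E' Q) {t : ℝ} (ht : t ∈ Icc (0 : ℝ) T) (hS : 0 ≤ S t) :
    |E t - E 0| ≤ 4.7e-5 := by
  have hpos : ∀ τ ∈ Icc (0 : ℝ) t, 0 ≤ S τ := fun τ hτ =>
    hS.trans (h.anti ⟨hτ.1, hτ.2.trans ht.2⟩ ht hτ.2)
  have hsub : ∀ τ ∈ Icc (0 : ℝ) t, τ ∈ Icc (0 : ℝ) T := fun τ hτ => ⟨hτ.1, hτ.2.trans ht.2⟩
  have key := comp_abs (f := E) (f' := E') (g := fun τ => -(1.88 * (1 / (3 * R τ ^ 3))) - 2e-6 * S τ)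
    (g' := fun τ => -(1.88 * -(S τ / R τ ^ 4)) - 2e-6 * S' τ) ht.1
    (fun τ hτ => h.dE τ (hsub τ hτ))
    (fun τ hτ => (((dcube (h.dR τ (hsub τ hτ)) (by linarith [h.R1 τ (hsub τ hτ)])).const_mul
      1.88).neg).sub ((h.dS τ (hsub τ hτ)).const_mul 2e-6))
    (fun τ hτ => by
      have h1 := h.dE' τ (hsub τ hτ)
      have h2 := h.dS' τ (hsub τ hτ)
      have h3 := small5 (h.R1 τ (hsub τ hτ))
      rw [abs_of_nonneg (hpos τ hτ)] at h1
      have e : 1.88 * S τ / R τ ^ 4 = 1.88 * (S τ / R τ ^ 4) := by ring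
      rw [e] at h1
      linarith)
  have hR0 : 0 < R 0 := by linarith [h.R0]
  have hRt : 0 < R t := by linarith [h.R1 t ht]
  have h3 : (24 : ℝ) ^ 3 ≤ R 0 ^ 3 := pow_le_pow_left₀ (by norm_num) h.R0 3
  have h4 : 1 / (3 * R 0 ^ 3) ≤ 1 / (3 * 24 ^ 3) := by
    apply one_div_le_one_div_of_le (by norm_num)
    linarith
  have h5 : 0 ≤ 1 / (3 * R t ^ 3) := by positivity
  have h6 := (abs_le.1 (h.S1 0 ⟨le_rfl, h.T0⟩)).2
  generalize 1 / (3 * R t ^ 3) = A at key h5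
  generalize 1 / (3 * R 0 ^ 3) = B at key h4
  norm_num at key h4 h6 ⊢
  linarith

/-- falling part -/
lemma Sys.down (h : Sys T M R S S' E E' Q) {s t : ℝ} (hs : 0 ≤ s) (hst : s ≤ t) (ht : t ≤ T)
    (hS : S s = 0) : |E t - E s| ≤ 5.1e-5 := by
  have hsub : ∀ τ ∈ Icc s t, τ ∈ Icc (0 : ℝ) T := fun τ hτ => ⟨hs.trans hτ.1, hτ.2.trans ht⟩
  have hneg : ∀ τ ∈ Icc s t, S τ ≤ 0 := fun τ hτ => by
    rw [← hS]
    exact h.anti ⟨hs, hst.trans ht⟩ (hsub τ hτ) hτ.1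
  have key := comp_abs (f := E) (f' := E') (g := fun τ => (1.88 * (1 / (3 * R τ ^ 3))) - 2e-6 * S τ)
    (g' := fun τ => (1.88 * -(S τ / R τ ^ 4)) - 2e-6 * S' τ) hst
    (fun τ hτ => h.dE τ (hsub τ hτ))
    (fun τ hτ => ((dcube (h.dR τ (hsub τ hτ)) (by linarith [h.R1 τ (hsub τ hτ)])).const_mul
      1.88).sub ((h.dS τ (hsub τ hτ)).const_mul 2e-6))
    (fun τ hτ => by
      have h1 := h.dE' τ (hsub τ hτ)
      have h2 := h.dS' τ (hsub τ hτ)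
      have h3 := small5 (h.R1 τ (hsub τ hτ))
      rw [abs_of_nonpos (hneg τ hτ)] at h1
      have e : 1.88 * -S τ / R τ ^ 4 = 1.88 * -(S τ / R τ ^ 4) := by ring
      rw [e] at h1
      linarith)
  have htT : t ∈ Icc (0 : ℝ) T := ⟨hs.trans hst, ht⟩
  have hRt : 0 < R t := by linarith [h.R1 t htT]
  have hRs : 0 < R s := by linarith [h.R1 s ⟨hs, hst.trans ht⟩]
  have h3 : (23.3 : ℝ) ^ 3 ≤ R t ^ 3 := pow_le_pow_left₀ (by norm_num) (h.R1 t htT) 3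
  have h4 : 1 / (3 * R t ^ 3) ≤ 1 / (3 * 23.3 ^ 3) := by
    apply one_div_le_one_div_of_le (by norm_num)
    linarith
  have h5 : 0 ≤ 1 / (3 * R s ^ 3) := by positivity
  have h6 := (abs_le.1 (h.S1 t htT)).1
  rw [hS] at key
  generalize 1 / (3 * R t ^ 3) = A at key h4
  generalize 1 / (3 * R s ^ 3) = B at key h5
  norm_num at key h4 h6 ⊢
  linarith

lemma Sys.Ezero (h : Sys T M R S S' E E' Q) {t : ℝ} (ht : t ∈ Icc (0 : ℝ) T) (hS : S t = 0) :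
    E t < 0 ∧ -(2 * M / (3 * R t)) ≤ E t := by
  have h1 := h.Eq t ht
  have h2 := h.Q0 t ht
  have h3 := h.Q1 t ht
  have hR := h.R1 t ht
  have hR0 : 0 < R t := by linarith
  have hM := h.M1
  rw [hS] at h1
  have h4 : 0.01 / R t ^ 2 < 2 * M / R t := by
    rw [div_lt_div_iff₀ (by positivity) hR0]
    nlinarith
  have h5 : 2 * M / (3 * R t) = (2 * M / R t) / 3 := by
    field_simp
  rw [h1, h5]
  constructor <;> nlinarith

/-- upper bound of the time by the maximal distance -/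
lemma Sys.time (h : Sys T M R S S' E E' Q) {ρ : ℝ}
    (hR : ∀ t ∈ Icc (0 : ℝ) T, R t ≤ ρ) : 2.99 / ρ ^ 2 * T ≤ 1.01 := by
  have key := comp_le (f := S) (f' := S') (g := fun τ => -(2.99 / ρ ^ 2) * τ)
    (g' := fun _ => -(2.99 / ρ ^ 2)) h.T0 (fun τ hτ => h.dS τ hτ)
    (fun τ _ => by simpa using (hasDerivAt_id τ).const_mul (-(2.99 / ρ ^ 2)))
    (fun τ hτ => by
      refine (h.dS' τ hτ).trans (neg_le_neg ?_)
      have h1 := h.R1 τ hτ
      have h2 : R τ ^ 2 ≤ ρ ^ 2 := pow_le_pow_left₀ (by linarith) (hR τ hτ) 2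
      apply div_le_div_of_nonneg_left (by norm_num) (by positivity) h2)
  have h1 := (abs_le.1 (h.S1 T ⟨h.T0, le_rfl⟩)).1
  have h2 := (abs_le.1 (h.S1 0 ⟨le_rfl, h.T0⟩)).2
  norm_num at h1 h2 key ⊢
  linarith

/-- the distance at a zero of the radial velocity is maximal -/
lemma Sys.max (h : Sys T M R S S' E E' Q) {t0 : ℝ} (ht0 : t0 ∈ Icc (0 : ℝ) T) (hS : S t0 = 0)
    {t : ℝ} (ht : t ∈ Icc (0 : ℝ) T) : R t ≤ R t0 := by
  rcases le_total t t0 with hle | hle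
  · have hsub : ∀ τ ∈ Icc t t0, τ ∈ Icc (0 : ℝ) T := fun τ hτ => ⟨ht.1.trans hτ.1, hτ.2.trans ht0.2⟩
    have key := comp_le (f := fun _ => (0 : ℝ)) (f' := fun _ => 0) (g := R) (g' := S) hle
      (fun τ _ => hasDerivAt_const τ 0) (fun τ hτ => h.dR τ (hsub τ hτ))
      (fun τ hτ => by
        rw [← hS]
        exact h.anti (hsub τ hτ) ht0 hτ.2)
    linarith
  · have hsub : ∀ τ ∈ Icc t0 t, τ ∈ Icc (0 : ℝ) T := fun τ hτ => ⟨ht0.1.trans hτ.1, hτ.2.trans ht.2⟩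
    have key := comp_le (f := R) (f' := S) (g := fun _ => (0 : ℝ)) (g' := fun _ => 0) hle
      (fun τ hτ => h.dR τ (hsub τ hτ)) (fun τ _ => hasDerivAt_const τ 0)
      (fun τ hτ => by
        rw [← hS]
        exact h.anti ht0 (hsub τ hτ) hτ.1)
    linarith

lemma Sys.c1 (h : Sys T M R S S' E E' Q) (hE : 1e-4 ≤ E 0) {t : ℝ} (ht : t ∈ Icc (0 : ℝ) T) :
    0 < S t := by
  by_contra hS
  obtain ⟨t0, ht0, h0⟩ := h.zero ht (not_lt.1 hS)
  have ht0' : t0 ∈ Icc (0 : ℝ) T := ⟨ht0.1, ht0.2.trans ht.2⟩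
  have h1 := h.up ht0' h0.ge
  have h2 := (h.Ezero ht0' h0).1
  have h3 := (abs_le.1 h1).1
  norm_num at h3 hE
  linarith

lemma Sys.Rle (h : Sys T M R S S' E E' Q) (hE : E 0 ≤ -1e-4) {t : ℝ} (ht : t ∈ Icc (0 : ℝ) T)
    (hS : 0 ≤ S t) : R t ≤ 4e4 := by
  have h1 := (abs_le.1 (h.up ht hS)).2
  have h2 := h.Eq t ht
  have h3 := h.Q0 t ht
  have hR := h.R1 t ht
  have hR0 : 0 < R t := by linarith
  have hM := h.M2
  have h4 : 5.3e-5 ≤ 2 * M / (3 * R t) := by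
    have : 0 ≤ (S t ^ 2 + Q t) / 3 := by positivity
    norm_num at h1 hE ⊢
    linarith
  rw [le_div_iff₀ (by positivity)] at h4
  norm_num at h4 hM ⊢
  nlinarith

lemma Sys.c2 (h : Sys T M R S S' E E' Q) (hE : E 0 ≤ -1e-4) : T ≤ 1e9 := by
  have hR : ∀ t ∈ Icc (0 : ℝ) T, R t ≤ 4e4 := by
    intro t ht
    by_cases hS : 0 ≤ S t
    · exact h.Rle hE ht hS
    · obtain ⟨t0, ht0, h0⟩ := h.zero ht (not_le.1 hS).le
      have ht0' : t0 ∈ Icc (0 : ℝ) T := ⟨ht0.1, ht0.2.trans ht.2⟩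
      exact (h.max ht0' h0 ht).trans (h.Rle hE ht0' h0.ge)
  have := h.time hR
  norm_num at this ⊢
  linarith

lemma Sys.c3 (h : Sys T M R S S' E E' Q) (hT : 1e10 ≤ T) (hS : S T ≤ -0.485) : |E T| ≤ 1e-4 := by
  have hTT : T ∈ Icc (0 : ℝ) T := ⟨h.T0, le_rfl⟩
  obtain ⟨t0, ht0, h0⟩ := h.zero hTT (by linarith)
  have hR0 : 0 < R t0 := by linarith [h.R1 t0 ht0]
  have h1 := h.time (fun t ht => h.max ht0 h0 ht)
  have h2 : 1e5 ≤ R t0 := by
    by_contra hlt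
    rw [not_le] at hlt
    have h3 : R t0 ^ 2 < 1e5 ^ 2 := pow_lt_pow_left₀ hlt hR0.le two_ne_zero
    have h4 : 2.99 / R t0 ^ 2 * T = 2.99 * T / R t0 ^ 2 := by ring
    rw [h4, div_le_iff₀ (by positivity)] at h1
    norm_num at h1 h3 hT
    nlinarith
  obtain ⟨h3, h4⟩ := h.Ezero ht0 h0
  have h5 := h.down ht0.1 ht0.2 le_rfl h0
  have h6 : 2 * M / (3 * R t0) ≤ 3e-5 := by
    rw [div_le_iff₀ (by positivity)]
    have := h.M2
    norm_num at h2 this ⊢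
    linarith
  obtain ⟨h7, h8⟩ := abs_le.1 h5
  rw [abs_le]
  norm_num at h7 h8 h6 ⊢
  constructor <;> linarith

lemma Sys.c4 (h : Sys T M R S S' E E' Q) {t : ℝ} (ht : t ∈ Icc (0 : ℝ) T) (hS : S t ≤ -0.485) :
    R t ≤ 26 := by
  have h2 := h.Eq t ht
  have h3 := h.Q0 t ht
  have hR := h.R1 t ht
  have hR0 : 0 < R t := by linarith
  have hM := h.M2
  have h1 := (abs_le.1 (h.E1 t ht)).2
  have h5 : 0.235 ≤ S t ^ 2 := by nlinarith
  have h4 : 0.0775 ≤ 2 * M / (3 * R t) := by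
    norm_num at h1 h5 ⊢
    linarith
  rw [le_div_iff₀ (by positivity)] at h4
  norm_num at h4 hM ⊢
  nlinarith

/-! ### the bridge -/

open Pool.Agent.Helper35TB in
lemma eo_bd {a b c : ℝ} (h : MassB a b c) {x y u v : ℂ} (hr : ‖x‖ ≤ 1.002) (hρ : 23.3 ≤ ‖y‖)
    (hAm : Am a b c x y u v = 0) (hL : |Helper35TB.cr x u| ≤ 0.109) :
    |Helper35TB.cr y v| ≤ 0.0818 ∧ |2 / 3 * Helper35TB.dt v (gF a b c x y)| ≤
      1.88 * |Sr y v| / ‖y‖ ^ 4 + 0.075 / ‖y‖ ^ 5 := by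
  have hy : 0 < ‖y‖ := by linarith
  have hab : 0 < a + b := by linarith [h.m1]
  have habc : 0 < a + b + c := by linarith [h.M1]
  have ha := abs_le.1 h.ha
  have hb := abs_le.1 h.hb
  have hmub : mub a b ≤ 0.50001 := by
    unfold mub
    rw [div_le_iff₀ hab]
    norm_num at ha hb ⊢
    nlinarith
  have hmub0 : 0 ≤ mub a b := by
    unfold mub
    apply div_nonneg _ hab.le
    norm_num at ha hb
    apply mul_nonneg <;> linarith
  have hmuo : 0.6666 ≤ muo a b c := by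
    unfold muo
    rw [le_div_iff₀ habc]
    have h1 := h.c1
    have h2 := h.m1
    norm_num at h1 h2 ⊢
    nlinarith
  have hH : |Helper35TB.cr y v| ≤ 0.0818 := by
    unfold Am at hAm
    have h1 : muo a b c * |Helper35TB.cr y v| = mub a b * |Helper35TB.cr x u| := by
      rw [← abs_of_nonneg hmub0, ← abs_mul, ← abs_of_nonneg (show 0 ≤ muo a b c by linarith),
        ← abs_mul,
        show muo a b c * Helper35TB.cr y v = -(mub a b * Helper35TB.cr x u) by linarith, abs_neg]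
    have h2 : mub a b * |Helper35TB.cr x u| ≤ 0.50001 * 0.109 :=
      mul_le_mul hmub hL (abs_nonneg _) (by norm_num)
    have h3 := abs_nonneg (Helper35TB.cr y v)
    norm_num at h2 hmuo ⊢
    nlinarith
  refine ⟨hH, ?_⟩
  have hdt : Helper35TB.dt v (gF a b c x y) = (Helper35TB.dt y v * Helper35TB.dt y (gF a b c x y) +
      Helper35TB.cr y v * Helper35TB.cr y (gF a b c x y)) / ‖y‖ ^ 2 := by
    have h1 : ‖y‖ ^ 2 = y.re ^ 2 + y.im ^ 2 := by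
      rw [norm_sq_eq]; simp only [Helper35TB.dt]; ring
    rw [eq_div_iff (by positivity), h1]
    simp only [Helper35TB.dt, Helper35TB.cr]
    ring
  have hdty : Helper35TB.dt y v = Sr y v * ‖y‖ := by
    unfold Sr
    field_simp
  have g1 := dt_gF_coarse (x := x) (y := y) h (by linarith) (by linarith)
  have g2 := cr_gF_coarse (x := x) (y := y) h (by linarith) (by linarith)
  have hx2 : ‖x‖ ^ 2 ≤ 1.004004 := by
    have := pow_le_pow_left₀ (norm_nonneg x) hr 2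
    norm_num at this ⊢
    linarith
  have g1' : |Helper35TB.dt y (gF a b c x y)| ≤ 2.8113 / ‖y‖ ^ 3 := by
    refine g1.trans ?_
    apply div_le_div_of_nonneg_right _ (by positivity)
    norm_num at hx2 ⊢
    linarith
  have g2' : |Helper35TB.cr y (gF a b c x y)| ≤ 1.3655 / ‖y‖ ^ 3 := by
    refine g2.trans ?_
    apply div_le_div_of_nonneg_right _ (by positivity)
    norm_num at hx2 ⊢
    linarith
  have e1 : |Helper35TB.dt y v * Helper35TB.dt y (gF a b c x y)| ≤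
      |Sr y v| * ‖y‖ * (2.8113 / ‖y‖ ^ 3) := by
    rw [abs_mul, hdty, abs_mul, abs_of_pos hy]
    gcongr
  have e2 : |Helper35TB.cr y v * Helper35TB.cr y (gF a b c x y)| ≤ 0.0818 * (1.3655 / ‖y‖ ^ 3) := by
    rw [abs_mul]
    gcongr
  have e3 : |Helper35TB.dt v (gF a b c x y)| ≤
      (|Sr y v| * ‖y‖ * (2.8113 / ‖y‖ ^ 3) + 0.0818 * (1.3655 / ‖y‖ ^ 3)) / ‖y‖ ^ 2 := by
    rw [hdt, abs_div, abs_of_pos (by positivity : 0 < ‖y‖ ^ 2)]
    apply div_le_div_of_nonneg_right _ (by positivity)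
    exact (abs_add_le _ _).trans (add_le_add e1 e2)
  rw [abs_mul, abs_of_pos (by norm_num : (0 : ℝ) < 2 / 3)]
  have e4 : 2 / 3 * ((|Sr y v| * ‖y‖ * (2.8113 / ‖y‖ ^ 3) + 0.0818 * (1.3655 / ‖y‖ ^ 3)) / ‖y‖ ^ 2) =
      2 / 3 * 2.8113 * (|Sr y v| / ‖y‖ ^ 4) + 2 / 3 * 0.0818 * 1.3655 * (1 / ‖y‖ ^ 5) := by
    field_simp
  have e5 : 1.88 * |Sr y v| / ‖y‖ ^ 4 + 0.075 / ‖y‖ ^ 5 =
      1.88 * (|Sr y v| / ‖y‖ ^ 4) + 0.075 * (1 / ‖y‖ ^ 5) := by ring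
  rw [e5]
  have p1 : 0 ≤ |Sr y v| / ‖y‖ ^ 4 := by positivity
  have p2 : 0 ≤ 1 / ‖y‖ ^ 5 := by positivity
  calc 2 / 3 * |Helper35TB.dt v (gF a b c x y)| ≤ _ := mul_le_mul_of_nonneg_left e3 (by norm_num)
    _ = _ := e4
    _ ≤ _ := by
      generalize |Sr y v| / ‖y‖ ^ 4 = A at p1
      generalize 1 / ‖y‖ ^ 5 = B at p2
      norm_num
      linarith

open Pool.Agent.Helper35TB in
theorem dich (hbr : BridgeStmt) : DichStmt := by
  intro m hm σ hσ T X hX hA hS'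
  obtain ⟨S', hS'⟩ := hS'
  have hx0 : ∀ t ∈ Icc (0 : ℝ) T, (X t).1 ≠ 0 := fun t ht =>
    norm_pos_iff.1 (lt_of_lt_of_le (by norm_num) (hA t ht).r1)
  have hy0 : ∀ t ∈ Icc (0 : ℝ) T, (X t).2.1 ≠ 0 := fun t ht =>
    norm_pos_iff.1 (lt_of_lt_of_le (by norm_num) (hA t ht).R1)
  have hmn : MassNear (m 0) (m 1) (m 2) :=
    (hbr m hm (X 0) (hx0 0 ⟨le_rfl, hX.T0⟩) (hy0 0 ⟨le_rfl, hX.T0⟩)).1
  have hmb := hmn.toB
  have hkep : ∀ t ∈ Icc (0 : ℝ) T, KepAt (m 0 + m 1 + m 2) (fun s => (X s).2.1)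
      (fun s => (X s).2.2.2) (gF (m 0) (m 1) (m 2) (X t).1 (X t).2.1) t := by
    intro t ht
    have h1 := hX.ode t (hA t ht).good
    have h2 := (hbr m hm (X t) (hx0 t ht) (hy0 t ht)).2.2.2.1
    rw [h2] at h1
    have h3 := h1.snd.fst
    have h4 := h1.snd.snd.snd
    exact ⟨h3, h4⟩
  have hAm : ∀ t ∈ Icc (0 : ℝ) T, Am (m 0) (m 1) (m 2) (X t).1 (X t).2.1 (X t).2.2.1
      (X t).2.2.2 = 0 := by
    intro t ht
    rw [← (hbr m hm (X t) (hx0 t ht) (hy0 t ht)).2.2.2.2.2.1]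
    exact (hA t ht).lev.2.2
  have hSS : ∀ t ∈ Icc (0 : ℝ) T, SS (X t) = Sr (X t).2.1 (X t).2.2.2 := fun t ht =>
    (hbr m hm (X t) (hx0 t ht) (hy0 t ht)).2.2.2.2.2.2.1
  have hbd : ∀ t ∈ Icc (0 : ℝ) T, _ := fun t ht => eo_bd hmb (hA t ht).r2 (hA t ht).R1 (hAm t ht)
    (by
      rw [← (hbr m hm (X t) (hx0 t ht) (hy0 t ht)).2.1]
      exact (hA t ht).L2)
  have hst := hX.start
  have hsys : Sys T (m 0 + m 1 + m 2) (fun t => ‖(X t).2.1‖) (fun t => SS (X t)) S'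
      (fun t => EO m (X t))
      (fun t => 2 / 3 * Helper35TB.dt (X t).2.2.2 (gF (m 0) (m 1) (m 2) (X t).1 (X t).2.1))
      (fun t => (Helper35TB.cr (X t).2.1 (X t).2.2.2 / ‖(X t).2.1‖) ^ 2) := by
    constructor
    · exact hX.T0
    · exact hmb.M1
    · exact hmb.M2
    · intro t ht
      have h1 := (hkep t ht).norm (hy0 t ht)
      refine h1.congr_deriv ?_
      rw [hSS t ht]
      rfl
    · intro t ht
      exact (hS' t ht).1
    · intro t ht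
      exact (hS' t ht).2
    · intro t ht
      have h1 := ((hkep t ht).energy (hy0 t ht)).const_mul (2 / 3)
      have e : (fun t => EO m (X t)) = fun s => 2 / 3 * (‖(X s).2.2.2‖ ^ 2 / 2 -
          (m 0 + m 1 + m 2) / ‖(X s).2.1‖) := by
        funext s
        rw [EO, mT]
        ring
      rw [e]
      exact h1
    · intro t ht
      have := (hbd t ht).2
      rw [← hSS t ht] at this
      exact this
    · intro t ht
      exact (hA t ht).R1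
    · exact hst.2.2.1
    · intro t ht
      exact (hA t ht).S
    · exact hst.2.2.2.2.1
    · intro t ht
      have h1 := lagrange_id (X t).2.1 (X t).2.2.2
      have hy : 0 < ‖(X t).2.1‖ := norm_pos_iff.2 (hy0 t ht)
      show EO m (X t) = _
      rw [EO, mT]
      have h2 : ‖(X t).2.2.2‖ ^ 2 = SS (X t) ^ 2 +
          (Helper35TB.cr (X t).2.1 (X t).2.2.2 / ‖(X t).2.1‖) ^ 2 := by
        rw [hSS t ht, Sr]
        field_simp
        linarith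
      rw [h2]
    · intro t ht
      positivity
    · intro t ht
      have h1 := (hbd t ht).1
      have hy : 0 < ‖(X t).2.1‖ := norm_pos_iff.2 (hy0 t ht)
      show (Helper35TB.cr (X t).2.1 (X t).2.2.2 / ‖(X t).2.1‖) ^ 2 ≤ _
      rw [div_pow]
      apply div_le_div_of_nonneg_right _ (by positivity)
      rw [← sq_abs]
      have := pow_le_pow_left₀ (abs_nonneg _) h1 2
      norm_num at this ⊢
      linarith
    · intro t ht
      exact (hA t ht).E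
  refine ⟨fun h t ht => hsys.c1 h ht, fun h => hsys.c2 ?_, fun h1 h2 => hsys.c3 h1 h2,
    fun t ht h => hsys.c4 ht h⟩
  exact h

end Pool.Agent.HM.FAR.H85
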