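import Pool.Agent.Helper10_Oh.ODE

/-! Global flow of a bounded globally Lipschitz vector field, jointly continuous. -/

namespace Pool.Agent.HM.H85

open Set Topology Filter
open scoped NNReal

section

variable {E : Type*} [NormedAddCommGroup E] [NormedSpace ℝ E]

/-- two trajectories, forward time -/
lemma dist_fwd {F : E → E} {K : ℝ≥0} (hK : LipschitzWith K F) {α β : ℝ → E}
    (hα : ∀ t, HasDerivAt α (F (α t)) t) (hβ : ∀ t, HasDerivAt β (F (β t)) t)
    {t : ℝ} (ht : 0 ≤ t) : dist (α t) (β t) ≤ dist (α 0) (β 0) * Real.exp (K * t) := by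
  have h := dist_le_of_trajectories_ODE (v := fun _ => F) (K := K) (f := α) (g := β) (a := 0)
    (b := t) (δ := dist (α 0) (β 0)) (fun _ => hK)
    (fun s _ => (hα s).continuousAt.continuousWithinAt)
    (fun s _ => (hα s).hasDerivWithinAt) (fun s _ => (hβ s).continuousAt.continuousWithinAt)
    (fun s _ => (hβ s).hasDerivWithinAt) le_rfl t ⟨ht, le_rfl⟩
  simpa using h

lemma dist_all {F : E → E} {K : ℝ≥0} (hK : LipschitzWith K F) {α β : ℝ → E}
    (hα : ∀ t, HasDerivAt α (F (α t)) t) (hβ : ∀ t, HasDerivAt β (F (β t)) t)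
    (t : ℝ) : dist (α t) (β t) ≤ dist (α 0) (β 0) * Real.exp (K * |t|) := by
  rcases le_total 0 t with ht | ht
  · rw [abs_of_nonneg ht]
    exact dist_fwd hK hα hβ ht
  · rw [abs_of_nonpos ht]
    have hK' : LipschitzWith K (fun x => -F x) := hK.neg
    have h := dist_fwd (F := fun x => -F x) hK' (α := fun s => α (-s)) (β := fun s => β (-s))
      (fun s => by
        have := (hα (-s)).scomp s (hasDerivAt_neg s)
        simpa [Function.comp_def] using this)
      (fun s => by
        have := (hβ (-s)).scomp s (hasDerivAt_neg s)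
        simpa [Function.comp_def] using this) (t := -t) (by linarith)
    simpa using h

/-- A bounded globally Lipschitz autonomous vector field has a jointly continuous global flow. -/
theorem exists_gflow [CompleteSpace E]
    (F : E → E) (K L : ℝ≥0) (hK : LipschitzWith K F) (hL : ∀ x, ‖F x‖ ≤ L) :
    ∃ Φ : E → ℝ → E, (∀ x, Φ x 0 = x) ∧ (∀ x t, HasDerivAt (Φ x) (F (Φ x t)) t) ∧
      Continuous (fun p : E × ℝ => Φ p.1 p.2) ∧
      (∀ x y t, dist (Φ x t) (Φ y t) ≤ dist x y * Real.exp (K * |t|)) ∧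
      (∀ x s t, Φ (Φ x s) t = Φ x (s + t)) ∧
      (∀ (a b : ℝ) (α : ℝ → E), 0 ∈ Icc a b →
        (∀ t ∈ Icc a b, HasDerivWithinAt α (F (α t)) (Icc a b) t) →
        ∀ t ∈ Icc a b, α t = Φ (α 0) t) := by
  have hex : ∀ x : E, ∃ α : ℝ → E, α 0 = x ∧ ∀ t, HasDerivAt α (F (α t)) t := fun x =>
    Pool.Agent.Helper10_Oh.exists_global (fun _ => F) K L (fun _ => hK)
      (fun _ => continuous_const) (fun _ => hL) x
  choose Φ hΦ0 hΦ using hex
  have hdist : ∀ x y t, dist (Φ x t) (Φ y t) ≤ dist x y * Real.exp (K * |t|) := by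
    intro x y t
    have := dist_all hK (hΦ x) (hΦ y) t
    rwa [hΦ0, hΦ0] at this
  have hlip : ∀ x t s, dist (Φ x t) (Φ x s) ≤ L * dist t s := by
    intro x t s
    have h : LipschitzWith L (Φ x) := by
      apply lipschitzWith_of_nnnorm_deriv_le
      · exact fun t => (hΦ x t).differentiableAt
      · intro t
        rw [(hΦ x t).deriv]
        exact hL _
    exact h.dist_le_mul t s
  refine ⟨Φ, hΦ0, hΦ, ?_, hdist, ?_, ?_⟩
  · rw [continuous_iff_continuousAt]
    rintro ⟨x, t⟩
    rw [ContinuousAt, tendsto_iff_dist_tendsto_zero]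
    have hb : ∀ p : E × ℝ, dist (Φ p.1 p.2) (Φ x t)
        ≤ dist p.1 x * Real.exp (K * |t|) + L * dist p.2 t := by
      intro p
      calc dist (Φ p.1 p.2) (Φ x t) ≤ dist (Φ p.1 p.2) (Φ p.1 t) + dist (Φ p.1 t) (Φ x t) :=
            dist_triangle _ _ _
        _ ≤ L * dist p.2 t + dist p.1 x * Real.exp (K * |t|) := add_le_add (hlip _ _ _) (hdist _ _ _)
        _ = _ := by ring
    refine squeeze_zero (fun _ => dist_nonneg) hb ?_
    have h1 : Tendsto (fun p : E × ℝ => dist p.1 x * Real.exp (K * |t|) + L * dist p.2 t)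
        (𝓝 (x, t)) (𝓝 (dist x x * Real.exp (K * |t|) + L * dist t t)) := by
      apply Continuous.tendsto (x := (x, t))
        (f := fun p : E × ℝ => dist p.1 x * Real.exp (K * |t|) + L * dist p.2 t)
      fun_prop
    simpa using h1
  · intro x s t
    have h1 : Φ (Φ x s) = fun t => Φ x (s + t) := by
      apply ODE_solution_unique_univ (v := fun _ => F) (s := fun _ => univ) (K := K) (t₀ := 0)
      · exact fun _ => hK.lipschitzOnWith
      · exact fun t => ⟨hΦ _ t, mem_univ _⟩
      · intro t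
        refine ⟨?_, mem_univ _⟩
        have := (hΦ x (s + t)).scomp t ((hasDerivAt_id t).const_add s)
        simpa [Function.comp_def] using this
      · simp [hΦ0]
    exact congrFun h1 t
  · intro a b α h0 hα t ht
    have hc : ContinuousOn α (Icc a b) := fun s hs => (hα s hs).continuousWithinAt
    rcases le_total 0 t with h | h
    · have h2 := ODE_solution_unique (v := fun _ => F) (K := K) (f := α) (g := Φ (α 0)) (a := 0)
        (b := t) (fun _ => hK) (hc.mono (Icc_subset_Icc h0.1 ht.2))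
        (fun s hs => by
          have hs' : s ∈ Icc a b := ⟨h0.1.trans hs.1, hs.2.le.trans ht.2⟩
          refine (hα s hs').mono_of_mem_nhdsWithin ?_
          exact Icc_mem_nhdsGE_of_mem ⟨hs'.1, lt_of_lt_of_le hs.2 ht.2⟩)
        (fun s _ => (hΦ _ s).continuousAt.continuousWithinAt)
        (fun s _ => (hΦ _ s).hasDerivWithinAt) (hΦ0 _).symm
      exact h2 ⟨h, le_rfl⟩
    · have h2 := ODE_solution_unique_of_mem_Icc_left (v := fun _ => F) (K := K) (f := α)
        (g := Φ (α 0)) (a := t) (b := 0) (s := fun _ => univ)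
        (fun _ _ => hK.lipschitzOnWith) (hc.mono (Icc_subset_Icc ht.1 h0.2))
        (fun s hs => by
          have hs' : s ∈ Icc a b := ⟨ht.1.trans hs.1.le, hs.2.trans h0.2⟩
          refine (hα s hs').mono_of_mem_nhdsWithin ?_
          exact Icc_mem_nhdsLE_of_mem ⟨lt_of_le_of_lt ht.1 hs.1, hs'.2⟩)
        (fun _ _ => mem_univ _)
        (fun s _ => (hΦ _ s).continuousAt.continuousWithinAt)
        (fun s _ => (hΦ _ s).hasDerivWithinAt) (fun _ _ => mem_univ _) (hΦ0 _).symm
      exact h2 ⟨le_rfl, h⟩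

end

end Pool.Agent.HM.H85
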