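import Pool.Agent.Helper35_TB.Stmt
import Pool.Agent.Helper85_HM.GFlow

/-! Squad HM, module FLOW of FAR: global flow of the modified Jacobi field. -/

set_option autoImplicit false

namespace Pool.Agent.HM.H85

open Complex Set Topology Pool.Agent.HM Pool.Agent.HM.FAR
open scoped NNReal

noncomputable section

/-- Lipschitz for some constant -/
def Lp {X Y : Type} [PseudoEMetricSpace X] [PseudoEMetricSpace Y] (f : X → Y) : Prop :=
  ∃ K : ℝ≥0, LipschitzWith K f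

lemma Lp.comp {X Y Z : Type} [PseudoEMetricSpace X] [PseudoEMetricSpace Y]
    [PseudoEMetricSpace Z] {f : Y → Z} {g : X → Y} (hf : Lp f) (hg : Lp g) :
    Lp (fun x => f (g x)) := by
  obtain ⟨K, hK⟩ := hf
  obtain ⟨L, hL⟩ := hg
  exact ⟨_, hK.comp hL⟩

lemma Lp.prodMk {X Y Z : Type} [PseudoEMetricSpace X] [PseudoEMetricSpace Y]
    [PseudoEMetricSpace Z] {f : X → Y} {g : X → Z} (hf : Lp f) (hg : Lp g) :
    Lp (fun x => (f x, g x)) := by
  obtain ⟨K, hK⟩ := hf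
  obtain ⟨L, hL⟩ := hg
  exact ⟨_, hK.prodMk hL⟩

lemma Lp.add {X : Type} [PseudoEMetricSpace X] {f g : X → ℂ} (hf : Lp f) (hg : Lp g) :
    Lp (fun x => f x + g x) := by
  obtain ⟨K, hK⟩ := hf
  obtain ⟨L, hL⟩ := hg
  exact ⟨_, hK.add hL⟩

lemma Lp.sub {X : Type} [PseudoEMetricSpace X] {f g : X → ℂ} (hf : Lp f) (hg : Lp g) :
    Lp (fun x => f x - g x) := by
  obtain ⟨K, hK⟩ := hf
  obtain ⟨L, hL⟩ := hg
  exact ⟨_, hK.sub hL⟩

lemma Lp.const_mul {X : Type} [PseudoEMetricSpace X] {f : X → ℂ} (c : ℂ) (hf : Lp f) :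
    Lp (fun x => c * f x) := by
  obtain ⟨K, hK⟩ := hf
  have h : LipschitzWith ‖c‖₊ (fun z : ℂ => c * z) := by
    apply LipschitzWith.of_dist_le_mul
    intro z w
    rw [dist_eq_norm, dist_eq_norm, ← mul_sub, norm_mul]
    rfl
  exact ⟨_, h.comp hK⟩

/-- bounded -/
def Bd {X Y : Type} [NormedAddCommGroup Y] (f : X → Y) : Prop := ∃ L : ℝ≥0, ∀ x, ‖f x‖ ≤ L

lemma Bd.comp {X Y Z : Type} [NormedAddCommGroup Z] {f : Y → Z} (hf : Bd f) (g : X → Y) :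
    Bd (fun x => f (g x)) := by
  obtain ⟨K, hK⟩ := hf
  exact ⟨K, fun x => hK _⟩

lemma Bd.add {X : Type} {f g : X → ℂ} (hf : Bd f) (hg : Bd g) : Bd (fun x => f x + g x) := by
  obtain ⟨K, hK⟩ := hf
  obtain ⟨L, hL⟩ := hg
  exact ⟨K + L, fun x => (norm_add_le _ _).trans (by push_cast; exact add_le_add (hK x) (hL x))⟩

lemma Bd.sub {X : Type} {f g : X → ℂ} (hf : Bd f) (hg : Bd g) : Bd (fun x => f x - g x) := by
  obtain ⟨K, hK⟩ := hf
  obtain ⟨L, hL⟩ := hg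
  exact ⟨K + L, fun x => (norm_sub_le _ _).trans (by push_cast; exact add_le_add (hK x) (hL x))⟩

lemma Bd.const_mul {X : Type} {f : X → ℂ} (c : ℂ) (hf : Bd f) : Bd (fun x => c * f x) := by
  obtain ⟨K, hK⟩ := hf
  refine ⟨‖c‖₊ * K, fun x => ?_⟩
  rw [norm_mul]
  push_cast
  exact mul_le_mul_of_nonneg_left (hK x) (norm_nonneg _)

lemma Bd.prodMk {X Y Z : Type} [NormedAddCommGroup Y] [NormedAddCommGroup Z] {f : X → Y}
    {g : X → Z} (hf : Bd f) (hg : Bd g) : Bd (fun x => (f x, g x)) := by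
  obtain ⟨K, hK⟩ := hf
  obtain ⟨L, hL⟩ := hg
  refine ⟨max K L, fun x => ?_⟩
  rw [Prod.norm_def]
  push_cast
  exact max_le_max (hK x) (hL x)

/-- cut off kernel -/
def FFc (z : ℂ) : ℂ := z / (((max ‖z‖ (1 / 1000) : ℝ) : ℂ) ^ 3)

lemma FFc_eq {z : ℂ} (hz : 1 / 1000 ≤ ‖z‖) : FFc z = FF z := by
  unfold FFc FF
  rw [max_eq_left hz]

lemma FFc_bd : Bd FFc := by
  refine ⟨1000000, fun z => ?_⟩
  unfold FFc
  set M : ℝ := max ‖z‖ (1 / 1000) with hM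
  have hM0 : 1 / 1000 ≤ M := le_max_right _ _
  have hMz : ‖z‖ ≤ M := le_max_left _ _
  have hMp : 0 < M := by linarith
  rw [norm_div, norm_pow, Complex.norm_real, Real.norm_of_nonneg hMp.le, div_le_iff₀ (by positivity)]
  have h1 : (1 : ℝ) ≤ 1000000 * M ^ 2 := by nlinarith
  calc ‖z‖ ≤ M := hMz
    _ = 1 * M := by ring
    _ ≤ (1000000 * M ^ 2) * M := mul_le_mul_of_nonneg_right h1 hMp.le
    _ = _ := by push_cast; ring

lemma FFc_lp : Lp FFc := by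
  refine ⟨4000000000, ?_⟩
  apply LipschitzWith.of_dist_le_mul
  intro z w
  rw [dist_eq_norm, dist_eq_norm]
  unfold FFc
  set M : ℝ := max ‖z‖ (1 / 1000) with hM
  set N : ℝ := max ‖w‖ (1 / 1000) with hN
  have hM0 : 1 / 1000 ≤ M := le_max_right _ _
  have hN0 : 1 / 1000 ≤ N := le_max_right _ _
  have hNw : ‖w‖ ≤ N := le_max_left _ _
  have hMp : 0 < M := by linarith
  have hNp : 0 < N := by linarith
  have hMN : |N - M| ≤ ‖z - w‖ := by
    rw [hM, hN]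
    refine (abs_max_sub_max_le_abs _ _ _).trans ?_
    rw [abs_sub_comm]
    exact abs_norm_sub_norm_le z w
  have hMc : (M : ℂ) ≠ 0 := by exact_mod_cast hMp.ne'
  have hNc : (N : ℂ) ≠ 0 := by exact_mod_cast hNp.ne'
  have hsplit : z / (M : ℂ) ^ 3 - w / (N : ℂ) ^ 3
      = (z - w) * ((1 / M ^ 3 : ℝ) : ℂ)
        + w * (((N - M) * (1 / (M ^ 3 * N) + 1 / (M ^ 2 * N ^ 2) + 1 / (M * N ^ 3)) : ℝ) : ℂ) := by
    push_cast
    field_simp
    ring
  rw [hsplit]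
  have hb : ∀ x : ℝ, 1 / 1000 ≤ x → 1 / x ≤ 1000 := by
    intro x hx
    rw [div_le_iff₀ (by linarith)]
    linarith
  have hM1 := hb M hM0
  have hN1 := hb N hN0
  have hM1p : 0 < 1 / M := by positivity
  have hN1p : 0 < 1 / N := by positivity
  have e1 : 1 / M ^ 3 ≤ 1000000000 := by
    have : 1 / M ^ 3 = (1 / M) ^ 3 := by field_simp
    rw [this]
    calc (1 / M) ^ 3 ≤ 1000 ^ 3 := pow_le_pow_left₀ hM1p.le hM1 3
      _ = 1000000000 := by norm_num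
  have e2 : ‖w‖ * (1 / (M ^ 3 * N) + 1 / (M ^ 2 * N ^ 2) + 1 / (M * N ^ 3)) ≤ 3000000000 := by
    calc ‖w‖ * (1 / (M ^ 3 * N) + 1 / (M ^ 2 * N ^ 2) + 1 / (M * N ^ 3))
        ≤ N * (1 / (M ^ 3 * N) + 1 / (M ^ 2 * N ^ 2) + 1 / (M * N ^ 3)) :=
          mul_le_mul_of_nonneg_right hNw (by positivity)
      _ = (1 / M) ^ 3 + (1 / M) ^ 2 * (1 / N) + (1 / M) * (1 / N) ^ 2 := by field_simp
      _ ≤ 1000 ^ 3 + 1000 ^ 2 * 1000 + 1000 * 1000 ^ 2 := by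
          have h1 : (1 / M) ^ 3 ≤ 1000 ^ 3 := pow_le_pow_left₀ hM1p.le hM1 3
          have h2 : (1 / M) ^ 2 * (1 / N) ≤ 1000 ^ 2 * 1000 :=
            mul_le_mul (pow_le_pow_left₀ hM1p.le hM1 2) hN1 hN1p.le (by norm_num)
          have h3 : (1 / M) * (1 / N) ^ 2 ≤ 1000 * 1000 ^ 2 :=
            mul_le_mul hM1 (pow_le_pow_left₀ hN1p.le hN1 2) (by positivity) (by norm_num)
          linarith
      _ = 3000000000 := by norm_num
  have hS : 0 ≤ 1 / (M ^ 3 * N) + 1 / (M ^ 2 * N ^ 2) + 1 / (M * N ^ 3) := by positivity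
  calc ‖(z - w) * ((1 / M ^ 3 : ℝ) : ℂ)
        + w * (((N - M) * (1 / (M ^ 3 * N) + 1 / (M ^ 2 * N ^ 2) + 1 / (M * N ^ 3)) : ℝ) : ℂ)‖
      ≤ ‖z - w‖ * (1 / M ^ 3)
        + ‖w‖ * (|N - M| * (1 / (M ^ 3 * N) + 1 / (M ^ 2 * N ^ 2) + 1 / (M * N ^ 3))) := by
        refine (norm_add_le _ _).trans (add_le_add ?_ ?_)
        · rw [norm_mul, Complex.norm_real, Real.norm_of_nonneg (by positivity)]
        · rw [norm_mul, Complex.norm_real, Real.norm_eq_abs, abs_mul, abs_of_nonneg hS]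
    _ = ‖z - w‖ * (1 / M ^ 3)
        + |N - M| * (‖w‖ * (1 / (M ^ 3 * N) + 1 / (M ^ 2 * N ^ 2) + 1 / (M * N ^ 3))) := by ring
    _ ≤ ‖z - w‖ * 1000000000 + ‖z - w‖ * 3000000000 := by
        refine add_le_add (mul_le_mul_of_nonneg_left e1 (norm_nonneg _)) ?_
        exact mul_le_mul hMN e2 (mul_nonneg (norm_nonneg _) hS) (norm_nonneg _)
    _ = _ := by push_cast; ring

/-- clamp of one real coordinate -/
def cl (x : ℝ) : ℝ := max (-100) (min 100 x)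

lemma cl_lip (x y : ℝ) : |cl x - cl y| ≤ |x - y| := by
  unfold cl
  rw [max_comm (-100 : ℝ), max_comm (-100 : ℝ)]
  refine (abs_max_sub_max_le_abs _ _ _).trans ?_
  have := abs_min_sub_min_le_max (100 : ℝ) x 100 y
  rw [sub_self, abs_zero] at this
  exact this.trans (max_le (abs_nonneg _) le_rfl)

lemma cl_abs (x : ℝ) : |cl x| ≤ 100 := by
  unfold cl
  rw [abs_le]
  exact ⟨le_max_left _ _, max_le (by norm_num) (min_le_left _ _)⟩

lemma cl_eq {x : ℝ} (h : |x| ≤ 100) : cl x = x := by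
  unfold cl
  rw [abs_le] at h
  rw [min_eq_right h.2, max_eq_right h.1]

/-- clamp of a velocity -/
def clC (v : ℂ) : ℂ := ⟨cl v.re, cl v.im⟩

lemma clC_eq {v : ℂ} (h : ‖v‖ ≤ 100) : clC v = v := by
  unfold clC
  rw [cl_eq ((abs_re_le_norm v).trans h), cl_eq ((abs_im_le_norm v).trans h)]

lemma clC_bd : Bd clC := by
  refine ⟨200, fun v => (norm_le_abs_re_add_abs_im _).trans ?_⟩
  have h1 := cl_abs v.re
  have h2 := cl_abs v.im
  change |cl v.re| + |cl v.im| ≤ _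
  push_cast
  linarith

lemma clC_lp : Lp clC := by
  refine ⟨2, ?_⟩
  apply LipschitzWith.of_dist_le_mul
  intro v w
  rw [dist_eq_norm, dist_eq_norm]
  refine (norm_le_abs_re_add_abs_im _).trans ?_
  have h1 := cl_lip v.re w.re
  have h2 := cl_lip v.im w.im
  have h3 : |v.re - w.re| ≤ ‖v - w‖ := by
    have := abs_re_le_norm (v - w)
    rwa [sub_re] at this
  have h4 : |v.im - w.im| ≤ ‖v - w‖ := by
    have := abs_im_le_norm (v - w)
    rwa [sub_im] at this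
  change |cl v.re - cl w.re| + |cl v.im - cl w.im| ≤ _
  push_cast
  linarith

/-- modified field -/
def JV (m : Fin 3 → ℝ) (X : JS) : JS :=
  (clC X.2.2.1, clC X.2.2.2,
    (-((m 0 + m 1 : ℝ) : ℂ)) * FFc X.1 + (m 2 : ℂ) * (FFc (vB m X.1 X.2.1) - FFc (vA m X.1 X.2.1)),
    (-((mT m / (m 0 + m 1) : ℝ) : ℂ)) *
      ((m 0 : ℂ) * FFc (vA m X.1 X.2.1) + (m 1 : ℂ) * FFc (vB m X.1 X.2.1)))

lemma lp_fst {X Y : Type} [PseudoEMetricSpace X] [PseudoEMetricSpace Y] :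
    Lp (fun p : X × Y => p.1) := ⟨1, LipschitzWith.prod_fst⟩

lemma lp_snd {X Y : Type} [PseudoEMetricSpace X] [PseudoEMetricSpace Y] :
    Lp (fun p : X × Y => p.2) := ⟨1, LipschitzWith.prod_snd⟩

lemma JV_lp (m : Fin 3 → ℝ) : Lp (JV m) := by
  have x1 : Lp (fun X : JS => X.1) := lp_fst
  have x2 : Lp (fun X : JS => X.2.1) := (lp_fst (X := ℂ) (Y := ℂ × ℂ)).comp lp_snd
  have x3' : Lp (fun X : JS => X.2.2) := (lp_snd (X := ℂ) (Y := ℂ × ℂ)).comp lp_snd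
  have x3 : Lp (fun X : JS => X.2.2.1) := (lp_fst (X := ℂ) (Y := ℂ)).comp x3'
  have x4 : Lp (fun X : JS => X.2.2.2) := (lp_snd (X := ℂ) (Y := ℂ)).comp x3'
  have hA : Lp (fun X : JS => vA m X.1 X.2.1) := x2.add (x1.const_mul _)
  have hB : Lp (fun X : JS => vB m X.1 X.2.1) := x2.sub (x1.const_mul _)
  have fA := FFc_lp.comp hA
  have fB := FFc_lp.comp hB
  exact (clC_lp.comp x3).prodMk ((clC_lp.comp x4).prodMk
    ((((FFc_lp.comp x1).const_mul _).add ((fB.sub fA).const_mul _)).prodMk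
      (((fA.const_mul _).add (fB.const_mul _)).const_mul _)))

lemma JV_bd (m : Fin 3 → ℝ) : Bd (JV m) := by
  have fA := FFc_bd.comp (fun X : JS => vA m X.1 X.2.1)
  have fB := FFc_bd.comp (fun X : JS => vB m X.1 X.2.1)
  exact (clC_bd.comp (fun X : JS => X.2.2.1)).prodMk ((clC_bd.comp (fun X : JS => X.2.2.2)).prodMk
    ((((FFc_bd.comp (fun X : JS => X.1)).const_mul _).add ((fB.sub fA).const_mul _)).prodMk
      (((fA.const_mul _).add (fB.const_mul _)).const_mul _)))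

lemma JV_eq {m : Fin 3 → ℝ} (hm : Near1 (1 / 100) m) {X : JS} (hX : Good X) :
    JV m X = JVF m X := by
  obtain ⟨h1, h2, h3, h4, h5⟩ := hX
  have hm0 := abs_lt.1 (hm 0)
  have hm1 := abs_lt.1 (hm 1)
  have hs : 0 < m 0 + m 1 := by linarith
  have hw : ∀ a b : ℝ, 0 < a → 0 < b → ‖((a / (a + b) : ℝ) : ℂ)‖ ≤ 1 := by
    intro a b ha hb
    rw [Complex.norm_real, Real.norm_of_nonneg (by positivity), div_le_one (by linarith)]
    linarith
  have hw1 : ‖((w1 m : ℝ) : ℂ)‖ ≤ 1 := by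
    have := hw (m 1) (m 0) (by linarith) (by linarith)
    rwa [add_comm (m 1) (m 0)] at this
  have hw0 : ‖((w0 m : ℝ) : ℂ)‖ ≤ 1 := hw (m 0) (m 1) (by linarith) (by linarith)
  have hA : 1 / 1000 ≤ ‖vA m X.1 X.2.1‖ := by
    have h6 : ‖X.2.1‖ ≤ ‖vA m X.1 X.2.1‖ + ‖((w1 m : ℝ) : ℂ) * X.1‖ := by
      have := norm_sub_le (vA m X.1 X.2.1) (((w1 m : ℝ) : ℂ) * X.1)
      unfold vA at this ⊢
      rwa [add_sub_cancel_right] at this
    have h7 : ‖((w1 m : ℝ) : ℂ) * X.1‖ ≤ 11 / 10 := by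
      rw [norm_mul]
      have h2' : ‖X.1‖ ≤ 11 / 10 := by norm_num at h2 ⊢; linarith
      nlinarith [norm_nonneg X.1, norm_nonneg ((w1 m : ℝ) : ℂ)]
    linarith
  have hB : 1 / 1000 ≤ ‖vB m X.1 X.2.1‖ := by
    have h6 : ‖X.2.1‖ ≤ ‖vB m X.1 X.2.1‖ + ‖((w0 m : ℝ) : ℂ) * X.1‖ := by
      have := norm_add_le (vB m X.1 X.2.1) (((w0 m : ℝ) : ℂ) * X.1)
      unfold vB at this ⊢
      rwa [sub_add_cancel] at this
    have h7 : ‖((w0 m : ℝ) : ℂ) * X.1‖ ≤ 11 / 10 := by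
      rw [norm_mul]
      have h2' : ‖X.1‖ ≤ 11 / 10 := by norm_num at h2 ⊢; linarith
      nlinarith [norm_nonneg X.1, norm_nonneg ((w0 m : ℝ) : ℂ)]
    linarith
  unfold JV JVF
  rw [clC_eq h4.le, clC_eq (by linarith), FFc_eq h1.le, FFc_eq hA, FFc_eq hB]

theorem flow : FlowStmt := by
  intro m hm
  obtain ⟨K, hK⟩ := JV_lp m
  obtain ⟨L, hL⟩ := JV_bd m
  obtain ⟨Φ, h0, hd, hc, -⟩ := exists_gflow (JV m) K L hK hL
  refine ⟨Φ, hc, h0, fun X t hG => ?_⟩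
  have := hd X t
  rwa [JV_eq hm hG] at this

end

end Pool.Agent.HM.H85
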